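import Pool.Agent.helper99.WN.SpecB

set_option autoImplicit false

open Classical

namespace Pool.Agent.WN

theorem BC_ind {X : Type*} [Fintype X] [DecidableEq X] (E : Finset X) :
    LinearIndependent ℚ (fun d : E => (Pi.single (d : X) (1 : ℚ) : X → ℚ)) := by
  have h1 : LinearIndependent ℚ (fun d : X => (Pi.single d (1 : ℚ) : X → ℚ)) := by
    have h2 := (Pi.basisFun ℚ X).linearIndependent
    have h3 : (fun d : X => (Pi.single d (1 : ℚ) : X → ℚ)) = Pi.basisFun ℚ X := by
      funext d
      rw [Pi.basisFun_apply]
    rw [h3]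
    exact h2
  exact h1.comp _ Subtype.val_injective

theorem BC_single {X : Type*} (i1 i2 : DecidableEq X) (x : X) :
    (@Pi.single X (fun _ => ℚ) _ i1 x 1) = (@Pi.single X (fun _ => ℚ) _ i2 x 1) := by
  rw [Subsingleton.elim i1 i2]

theorem BC : BC_stmt := by
  intro V _ k E W N z hW hE hlt
  set R : V → V → Prop := fun v v' => ∃ a b : ℤ, (N : ℤ) ∣ a - b ∧ v = z a ∧ v' = z b with hR
  have hfin : Finite (Quot R) := inferInstance
  let _ : Fintype (Quot R) := Fintype.ofFinite _
  refine ⟨Quot R, inferInstance, Quot.mk R, Quot.mk_surjective, ?_⟩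
  have hf : ∀ a b : ℤ, (N : ℤ) ∣ a - b → Quot.mk R (z a) = Quot.mk R (z b) := fun a b hd =>
    Quot.sound ⟨a, b, hd, rfl, rfl⟩
  -- vertices
  have hV : Fintype.card V ≤ Fintype.card (Quot R) + Module.finrank ℚ (dif N z) := by
    let F : Quot R → (V → ℚ) ⧸ dif N z := Quot.lift (fun v => (dif N z).mkQ (Pi.single v 1)) (by
      rintro v v' ⟨a, b, hd, rfl, rfl⟩
      rw [← sub_eq_zero, ← map_sub, Submodule.mkQ_apply, Submodule.Quotient.mk_eq_zero]
      exact Submodule.subset_span ⟨a, b, hd, rfl⟩)
    have h1 : Submodule.span ℚ (Set.range F) = ⊤ := by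
      rw [eq_top_iff]
      intro x _
      obtain ⟨h, rfl⟩ := (dif N z).mkQ_surjective x
      have h2 : h = ∑ v, h v • (Pi.single v (1 : ℚ) : V → ℚ) := by
        funext w
        simp [Finset.sum_apply, Pi.single_apply]
      rw [h2, map_sum]
      apply Submodule.sum_mem
      intro v _
      rw [map_smul]
      exact Submodule.smul_mem _ _ (Submodule.subset_span ⟨Quot.mk R v, rfl⟩)
    have h3 : Module.finrank ℚ ((V → ℚ) ⧸ dif N z) ≤ Fintype.card (Quot R) := by
      have h4 := finrank_range_le_card (R := ℚ) F
      unfold Set.finrank at h4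
      rw [h1, finrank_top] at h4
      exact h4
    have h5 := Submodule.finrank_quotient_add_finrank (dif N z)
    rw [Module.finrank_fintype_fun_eq_card] at h5
    omega
  -- edges
  set F' : V × Fin k × V → Quot R × Fin k × Quot R := fun d => (Quot.mk R d.1, d.2.1, Quot.mk R d.2.2) with hF'
  have hEd : (E.image F').card + Module.finrank ℚ (dif N (ed W z)) ≤ E.card := by
    set π : (V × Fin k × V → ℚ) →ₗ[ℚ] (Quot R × Fin k × Quot R → ℚ) :=
      Fintype.linearCombination ℚ (fun d => Pi.single (F' d) (1 : ℚ)) with hπ
    have hπs : ∀ d, π (Pi.single d 1) = Pi.single (F' d) 1 := by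
      intro d
      rw [hπ, Fintype.linearCombination_apply_single, one_smul]
    set S : Submodule ℚ (V × Fin k × V → ℚ) :=
      Submodule.span ℚ (Set.range (fun d : E => (Pi.single (d : V × Fin k × V) (1 : ℚ) : V × Fin k × V → ℚ))) with hS
    have hSc : Module.finrank ℚ S = E.card := by
      rw [hS, finrank_span_eq_card (BC_ind E), Fintype.card_coe]
    have hrk := LinearMap.finrank_range_add_finrank_ker (π.domRestrict S)
    rw [hSc] at hrk
    have hran : (E.image F').card ≤ Module.finrank ℚ (LinearMap.range (π.domRestrict S)) := by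
      have h1 : Submodule.span ℚ (Set.range (fun d : (E.image F' : Finset _) =>
          (Pi.single (d : Quot R × Fin k × Quot R) (1 : ℚ) : Quot R × Fin k × Quot R → ℚ))) ≤
          LinearMap.range (π.domRestrict S) := by
        rw [Submodule.span_le]
        rintro _ ⟨⟨d', hd'⟩, rfl⟩
        obtain ⟨d, hd, rfl⟩ := Finset.mem_image.1 hd'
        refine ⟨⟨Pi.single d 1, Submodule.subset_span ⟨⟨d, hd⟩, rfl⟩⟩, ?_⟩
        rw [LinearMap.domRestrict_apply]
        exact hπs d
      have h2 := Submodule.finrank_mono h1
      rw [finrank_span_eq_card (BC_ind (E.image F')), Fintype.card_coe] at h2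
      exact h2
    have hker : Module.finrank ℚ (dif N (ed W z)) ≤ Module.finrank ℚ (LinearMap.ker (π.domRestrict S)) := by
      have h1 : dif N (ed W z) ≤ (LinearMap.ker (π.domRestrict S)).map S.subtype := by
        unfold dif
        rw [Submodule.span_le]
        rintro _ ⟨a, b, hd, rfl⟩
        have hm : (Pi.single (ed W z a) 1 - Pi.single (ed W z b) 1 : V × Fin k × V → ℚ) ∈ S :=
          Submodule.sub_mem _ (Submodule.subset_span ⟨⟨_, hE a⟩, rfl⟩) (Submodule.subset_span ⟨⟨_, hE b⟩, rfl⟩)
        refine ⟨⟨_, hm⟩, ?_, ?_⟩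
        swap
        · exact congrArg₂ (fun x y => x - y) (BC_single _ _ (ed W z a)) (BC_single _ _ (ed W z b))
        rw [SetLike.mem_coe, LinearMap.mem_ker, LinearMap.domRestrict_apply]
        change π (Pi.single (ed W z a) 1 - Pi.single (ed W z b) 1) = 0
        have hab := hW.per_dvd hd
        have hFF : F' (ed W z a) = F' (ed W z b) := by
          rw [hF']
          simp only [Prod.mk.injEq, ed_al, ed_be, ed_letter]
          refine ⟨hf _ _ ?_, by rw [hab], hf _ _ ?_⟩
          · unfold al
            rw [hab]
            split_ifs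
            · exact hd
            · have : a + 1 - (b + 1) = a - b := by ring
              rw [this]; exact hd
          · unfold be
            rw [hab]
            split_ifs
            · have : a + 1 - (b + 1) = a - b := by ring
              rw [this]; exact hd
            · exact hd
        rw [map_sub, hπs, hπs, hFF, sub_self]
      have h2 := Submodule.finrank_mono h1
      rw [Submodule.finrank_map_subtype_eq] at h2
      exact h2
    omega
  omega

end Pool.Agent.WN
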