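import Pool.Agent.helper99.WN.SpecB

set_option autoImplicit false

open Classical

namespace Pool.Agent.WN

theorem BK_rank {E F : Type*} [AddCommGroup E] [Module ℚ E] [FiniteDimensional ℚ E] [AddCommGroup F] [Module ℚ F]
    [FiniteDimensional ℚ F] (A A' : Submodule ℚ E) (B B' : Submodule ℚ F) (φ : E →ₗ[ℚ] F) (hA : A ≤ A')
    (h1 : A.map φ ≤ B) (h2 : B' ≤ B ⊔ A'.map φ) :
    Module.finrank ℚ B' + Module.finrank ℚ A ≤ Module.finrank ℚ A' + Module.finrank ℚ B := by
  obtain ⟨D, hD⟩ := exists_isCompl A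
  have h3 : A ⊔ (D ⊓ A') = A' := by
    rw [← sup_inf_assoc_of_le D hA, hD.sup_eq_top, top_inf_eq]
  have h4 : A ⊓ (D ⊓ A') = ⊥ := by
    rw [← inf_assoc, hD.inf_eq_bot, bot_inf_eq]
  have h5 := Submodule.finrank_sup_add_finrank_inf_eq A (D ⊓ A')
  rw [h3, h4, finrank_bot, add_zero] at h5
  have h6 : B' ≤ B ⊔ (D ⊓ A').map φ := by
    refine h2.trans (sup_le le_sup_left ?_)
    rw [← h3, Submodule.map_sup]
    exact sup_le (h1.trans le_sup_left) (by rw [h3]; exact le_sup_right)
  have h7 := Submodule.finrank_mono h6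
  have h8 := Submodule.finrank_add_le_finrank_add_finrank B ((D ⊓ A').map φ)
  have h9 := Submodule.finrank_map_le φ (D ⊓ A')
  omega

theorem BK_gen {V : Type} [Fintype V] {k : ℕ} {W : ℤ → Lt k} {N : ℕ} {r : ℤ → ℤ} {z : ℤ → V} (hW : Wd W N)
    (hr : Stk W N r) (i : ℤ) (ε : ℤ → ℤ) (g : V × Fin k × V → V) (h1 : ∀ t, g (ed W z t) = z (ε t))
    (h2 : ∀ a b : ℤ, (N : ℤ) ∣ a - b → ε a - ε b = a - b)
    (h3 : ∀ a, (W a).1 = (W i).1 → r (al W a) < r (al W i) → r (ε a) < r (ε i))
    (h4 : ∀ a b : ℤ, (N : ℤ) ∣ a - b → al W a - al W b = a - b) :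
    ka N r z (ε i) ≤ la W N r z i := by
  set φ : (V × Fin k × V → ℚ) →ₗ[ℚ] (V → ℚ) := Fintype.linearCombination ℚ (fun d => Pi.single (g d) (1 : ℚ)) with hφ
  have hφs : ∀ d, φ (Pi.single d 1) = Pi.single (g d) 1 := by
    intro d
    rw [hφ, Fintype.linearCombination_apply_single, one_smul]
  have hmono : dd W N r z (W i).1 (r (al W i)) ≤ dd W N r z (W i).1 (r (al W i) + 1) := by
    apply Submodule.span_mono
    rintro v ⟨a, b, hd, hl, hlt, rfl⟩
    exact ⟨a, b, hd, hl, by omega, rfl⟩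
  have hmap : (dd W N r z (W i).1 (r (al W i))).map φ ≤ uu N r z (r (ε i)) := by
    unfold dd
    rw [Submodule.map_span, Submodule.span_le]
    rintro _ ⟨v, ⟨a, b, hd, hl, hlt, rfl⟩, rfl⟩
    apply Submodule.subset_span
    refine ⟨ε a, ε b, ?_, h3 a hl hlt, ?_⟩
    · rw [h2 a b hd]; exact hd
    · rw [map_sub, hφs, hφs, h1, h1]
  have hsup : uu N r z (r (ε i) + 1) ≤ uu N r z (r (ε i)) ⊔ (dd W N r z (W i).1 (r (al W i) + 1)).map φ := by
    unfold uu
    rw [Submodule.span_le]
    rintro v ⟨a, b, hd, hlt, rfl⟩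
    rcases lt_or_eq_of_le (Int.lt_add_one_iff.1 hlt) with h | h
    · exact Submodule.mem_sup_left (Submodule.subset_span ⟨a, b, hd, h, rfl⟩)
    · apply Submodule.mem_sup_right
      have hda := hr.inj _ _ h
      set a' := i + (a - ε i) with ha'
      have hai : (N : ℤ) ∣ a' - i := by
        have : a' - i = a - ε i := by rw [ha']; ring
        rw [this]
        exact hda
      have e1 : ε a' = a := by
        have := h2 a' i hai
        rw [ha'] at this ⊢
        linarith
      set b' := a' + (b - a) with hb'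
      have hba : (N : ℤ) ∣ b' - a' := by
        have : b' - a' = -(a - b) := by rw [hb']; ring
        rw [this]
        exact (dvd_neg).2 hd
      have e2 : ε b' = b := by
        have := h2 b' a' hba
        rw [e1] at this
        rw [hb'] at this ⊢
        linarith
      refine ⟨Pi.single (ed W z a') 1 - Pi.single (ed W z b') 1, Submodule.subset_span
        ⟨a', b', ?_, ?_, ?_, rfl⟩, ?_⟩
      · have : a' - b' = -(b' - a') := by ring
        rw [this]
        exact (dvd_neg).2 hba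
      · rw [hW.per_dvd hai]
      · have h5 := h4 a' i hai
        have h6 : r (al W a') = r (al W i) := hr.dvd (by rw [h5]; exact hai)
        omega
      · rw [map_sub, hφs, hφs, h1, h1, e1, e2]
  have := BK_rank _ _ _ _ φ hmono hmap hsup
  unfold ka la
  omega

theorem BK : BK_stmt := by
  intro V _ k W N r z hW hr i
  have hal : ∀ a b : ℤ, (N : ℤ) ∣ a - b → al W a - al W b = a - b := by
    intro a b hd
    unfold al
    rw [hW.per_dvd hd]
    split_ifs <;> ring
  have hbe : ∀ a b : ℤ, (N : ℤ) ∣ a - b → be W a - be W b = a - b := by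
    intro a b hd
    unfold be
    rw [hW.per_dvd hd]
    split_ifs <;> ring
  refine ⟨BK_gen hW hr i (al W) (fun d => d.1) (fun t => ed_al z t) hal (fun a _ h => h) hal,
    BK_gen hW hr i (be W) (fun d => d.2.2) (fun t => ed_be z t) hbe (fun a hl h => (hr.al_be hl).1 h) hal⟩

end Pool.Agent.WN
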