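import Pool.Agent.helper99.WN.SpecB

set_option autoImplicit false

open Classical

namespace Pool.Agent.WN

theorem CT_aux {V : Type} {k : ℕ} {W : ℤ → Lt k} {N : ℕ} {r : ℤ → ℤ} {s e : ℤ} {z : ℤ → V} (hW : Wd W N)
    (hr : Stk W N r) (hst : ∀ t t', s ≤ t → t < t' → t' ≤ e → (N : ℤ) ∣ t' - t → z t ≠ z t') :
    ∀ t ∈ Finset.Ico s e, ∀ t' ∈ Finset.Ico s e, ed W z t = ed W z t' →
      r (al W t) = r (al W t') → t = t' := by
  intro t ht t' ht' hz hrr
  rw [Finset.mem_Ico] at ht ht'
  have h1 : z (al W t) = z (al W t') := by rw [← ed_al z t, ← ed_al z t', hz]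
  have h2 : (W t).1 = (W t').1 := by rw [← ed_letter z t, ← ed_letter z t', hz]
  have hd := hr.inj _ _ hrr
  have h3 : al W t = al W t' := by
    have ha : s ≤ al W t ∧ al W t ≤ e := by
      rcases al_be_cases (W := W) t with ⟨h1, _⟩ | ⟨h1, _⟩ <;> rw [h1] <;> omega
    have ha' : s ≤ al W t' ∧ al W t' ≤ e := by
      rcases al_be_cases (W := W) t' with ⟨h1, _⟩ | ⟨h1, _⟩ <;> rw [h1] <;> omega
    rcases lt_trichotomy (al W t) (al W t') with h | h | h
    · exact absurd h1 (hst _ _ ha.1 h ha'.2 (by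
        have : al W t' - al W t = -(al W t - al W t') := by ring
        rw [this]
        exact (dvd_neg).2 hd))
    · exact h
    · exact absurd h1.symm (hst _ _ ha'.1 h ha.2 hd)
  have h5 := al_inj hW h2 hd
  have h6 := hW.per_dvd h5
  unfold al at h3
  rw [h6] at h3
  split_ifs at h3 <;> omega

theorem CT (hTT : TT_stmt) : CT_stmt := by
  intro V k E W N r s e z κ hW hr hE hRun hst hcard
  have h1 := hTT V k E W N r s e z κ hW hr hE hRun hst hcard
  have h2 := hTT V k E W N (fun i => - r i) s e z κ hW hr.neg hE hRun hst hcard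
  have hsub : ((Finset.Ico s e).filter fun t => ∃ t' ∈ Finset.Ico s e,
      t' ≠ t ∧ ed W z t' = ed W z t) ⊆
      ((Finset.Ico s e).filter fun t => ∃ t' ∈ Finset.Ico s e,
        ed W z t' = ed W z t ∧ r (al W t) < r (al W t')) ∪
      ((Finset.Ico s e).filter fun t => ∃ t' ∈ Finset.Ico s e,
        ed W z t' = ed W z t ∧ (fun i => - r i) (al W t) < (fun i => - r i) (al W t')) := by
    intro t ht
    obtain ⟨ht1, t', ht', hne, hed⟩ := Finset.mem_filter.1 ht
    rw [Finset.mem_union, Finset.mem_filter, Finset.mem_filter]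
    rcases lt_trichotomy (r (al W t)) (r (al W t')) with h | h | h
    · exact Or.inl ⟨ht1, t', ht', hed, h⟩
    · exact absurd (CT_aux hW hr hst t ht1 t' ht' hed.symm h).symm hne
    · exact Or.inr ⟨ht1, t', ht', hed, neg_lt_neg h⟩
  calc _ ≤ _ := Finset.card_le_card hsub
    _ ≤ _ := Finset.card_union_le _ _
    _ ≤ κ * N + κ * N := Nat.add_le_add h1 h2
    _ = 2 * κ * N := by ring

end Pool.Agent.WN
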