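import Pool.Agent.helper99.WN.SpecB

set_option autoImplicit false

open Classical

namespace Pool.Agent.WN

theorem TT_gen {β : Type*} [DecidableEq β] (T : Finset ℤ) (f : ℤ → β) (ρ : ℤ → ℤ)
    (hinj : ∀ t ∈ T, ∀ t' ∈ T, f t = f t' → ρ t = ρ t' → t = t')
    [DecidablePred (fun t => ∃ t' ∈ T, f t' = f t ∧ ρ t < ρ t')] :
    (T.filter (fun t => ∃ t' ∈ T, f t' = f t ∧ ρ t < ρ t')).card + (T.image f).card = T.card := by
  have h1 := Finset.card_filter_add_card_filter_not (s := T) (fun t => ∃ t' ∈ T, f t' = f t ∧ ρ t < ρ t')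
  have h2 : (T.filter (fun t => ¬ ∃ t' ∈ T, f t' = f t ∧ ρ t < ρ t')).image f = T.image f := by
    ext v
    constructor
    · intro hv
      obtain ⟨t, ht, rfl⟩ := Finset.mem_image.1 hv
      exact Finset.mem_image_of_mem f (Finset.mem_filter.1 ht).1
    · intro hv
      obtain ⟨t₀, ht₀, rfl⟩ := Finset.mem_image.1 hv
      obtain ⟨t, ht, hmax⟩ := Finset.exists_max_image (T.filter fun t => f t = f t₀) ρ
        ⟨t₀, Finset.mem_filter.2 ⟨ht₀, rfl⟩⟩
      obtain ⟨htT, hft⟩ := Finset.mem_filter.1 ht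
      refine Finset.mem_image.2 ⟨t, Finset.mem_filter.2 ⟨htT, ?_⟩, hft⟩
      rintro ⟨t', ht', hf', hlt⟩
      have := hmax t' (Finset.mem_filter.2 ⟨ht', hf'.trans hft⟩)
      omega
  have h3 : ((T.filter (fun t => ¬ ∃ t' ∈ T, f t' = f t ∧ ρ t < ρ t')).image f).card =
      (T.filter (fun t => ¬ ∃ t' ∈ T, f t' = f t ∧ ρ t < ρ t')).card := by
    apply Finset.card_image_of_injOn
    intro t ht t' ht' hf
    rw [Finset.mem_coe, Finset.mem_filter] at ht ht'
    apply hinj t ht.1 t' ht'.1 hf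
    apply le_antisymm
    · by_contra h
      exact ht'.2 ⟨t, ht.1, hf, not_le.1 h⟩
    · by_contra h
      exact ht.2 ⟨t', ht'.1, hf.symm, not_le.1 h⟩
  rw [← h2, h3]
  exact h1

theorem TT : TT_stmt := by
  intro V k E W N r s e z κ hW hr _ _ hst hcard
  by_cases hse : s ≤ e
  swap
  · rw [Finset.Ico_eq_empty (by omega), Finset.filter_empty, Finset.card_empty]
    exact Nat.zero_le _
  have hN := hW.pos
  -- two times with the same vertex and the same rank are equal
  have hinj1 : ∀ t ∈ Finset.Icc s e, ∀ t' ∈ Finset.Icc s e, z t = z t' → r t = r t' → t = t' := by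
    intro t ht t' ht' hz hrr
    rw [Finset.mem_Icc] at ht ht'
    have hd := hr.inj t t' hrr
    rcases lt_trichotomy t t' with h | h | h
    · exact absurd hz (hst t t' ht.1 h ht'.2 (by
        have : t' - t = -(t - t') := by ring
        rw [this]
        exact (dvd_neg).2 hd))
    · exact h
    · exact absurd hz.symm (hst t' t ht'.1 h ht.2 hd)
  have hmem : ∀ t ∈ Finset.Ico s e, al W t ∈ Finset.Icc s e ∧ be W t ∈ Finset.Icc s e := by
    intro t ht
    rw [Finset.mem_Ico] at ht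
    rcases al_be_cases (W := W) t with ⟨h1, h2⟩ | ⟨h1, h2⟩
    · rw [h1, h2, Finset.mem_Icc, Finset.mem_Icc]; omega
    · rw [h1, h2, Finset.mem_Icc, Finset.mem_Icc]; omega
  have hinj2 : ∀ t ∈ Finset.Ico s e, ∀ t' ∈ Finset.Ico s e, ed W z t = ed W z t' →
      r (al W t) = r (al W t') → t = t' := by
    intro t ht t' ht' hz hrr
    have h1 : z (al W t) = z (al W t') := by rw [← ed_al z t, ← ed_al z t', hz]
    have h2 : (W t).1 = (W t').1 := by rw [← ed_letter z t, ← ed_letter z t', hz]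
    have h3 := hinj1 _ (hmem t ht).1 _ (hmem t' ht').1 h1 hrr
    have h4 : (N : ℤ) ∣ al W t - al W t' := by rw [h3, sub_self]; exact dvd_zero _
    have h5 := al_inj hW h2 h4
    have h6 := hW.per_dvd h5
    unfold al at h3
    rw [h6] at h3
    split_ifs at h3 <;> omega
  have hc1 := TT_gen (Finset.Icc s e) z r hinj1
  have hc2 := TT_gen (Finset.Ico s e) (ed W z) (fun t => r (al W t)) hinj2
  set Z := (Finset.Icc s e).filter (fun t => ∃ t' ∈ Finset.Icc s e, z t' = z t ∧ r t < r t') with hZ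
  set F := (Finset.Ico s e).filter fun t => ∃ t' ∈ Finset.Ico s e,
      ed W z t' = ed W z t ∧ r (al W t) < r (al W t') with hF
  have hcc : (Finset.Icc s e).card = (Finset.Ico s e).card + 1 := by
    rw [Int.card_Icc, Int.card_Ico]
    omega
  have hZF : Z.card ≤ F.card + κ := by omega
  -- not top steps
  have hFZ : F ⊆ Z.filter fun t => t + 1 ∈ Z := by
    intro t ht
    obtain ⟨ht1, t', ht', hed, hlt⟩ := Finset.mem_filter.1 ht
    have hl : (W t).1 = (W t').1 := by rw [← ed_letter z t, ← ed_letter z t', hed]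
    have hal : al W t ∈ Z := by
      rw [hZ, Finset.mem_filter]
      exact ⟨(hmem t ht1).1, al W t', (hmem t' ht').1, by rw [← ed_al z t, ← ed_al z t', hed], hlt⟩
    have hbe : be W t ∈ Z := by
      rw [hZ, Finset.mem_filter]
      exact ⟨(hmem t ht1).2, be W t', (hmem t' ht').2, by rw [← ed_be z t, ← ed_be z t', hed], (hr.al_be hl).1 hlt⟩
    rw [Finset.mem_filter]
    rcases al_be_cases (W := W) t with ⟨h1, h2⟩ | ⟨h1, h2⟩
    · rw [h1] at hal
      rw [h2] at hbe
      exact ⟨hal, hbe⟩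
    · rw [h1] at hal
      rw [h2] at hbe
      exact ⟨hbe, hal⟩
  have hsplit := Finset.card_filter_add_card_filter_not (s := Z) (fun t => t + 1 ∈ Z)
  have hFc := Finset.card_le_card hFZ
  have hends : (Z.filter fun t => ¬ (t + 1 ∈ Z)).card ≤ κ := by omega
  -- the maximal rank
  obtain ⟨i, hi⟩ : ∃ i : ℤ, ∀ t : ℤ, r t ≤ r i := by
    obtain ⟨i, -, hi⟩ := Finset.exists_max_image (Finset.Ico (0 : ℤ) N) r ⟨0, by rw [Finset.mem_Ico]; omega⟩
    refine ⟨i, fun t => ?_⟩
    have h1 : r t = r (t % N) := hr.dvd ⟨t / N, by have := Int.emod_add_mul_ediv t N; linarith⟩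
    rw [h1]
    apply hi
    rw [Finset.mem_Ico]
    exact ⟨Int.emod_nonneg _ (by omega), Int.emod_lt_of_pos _ (by omega)⟩
  have hnot : ∀ t : ℤ, (N : ℤ) ∣ t - i → t ∉ Z := by
    intro t hd ht
    obtain ⟨-, t', -, -, hlt⟩ := Finset.mem_filter.1 ht
    have h1 : r t = r i := hr.dvd hd
    have h2 := hi t'
    omega
  have hcover : Z ⊆ (Z.filter fun t => ¬ (t + 1 ∈ Z)).biUnion fun u => Finset.Ioc (u - N) u := by
    intro t ht
    have hex : ∃ q : ℕ, 1 ≤ q ∧ q ≤ N ∧ t + q ∉ Z := by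
      refine ⟨N - ((t - i) % N).toNat, ?_, ?_, ?_⟩
      · have h1 := Int.emod_nonneg (t - i) (show (N : ℤ) ≠ 0 by omega)
        have h2 := Int.emod_lt_of_pos (t - i) (show (0 : ℤ) < N by omega)
        omega
      · omega
      · apply hnot
        have h1 := Int.emod_nonneg (t - i) (show (N : ℤ) ≠ 0 by omega)
        have h2 := Int.emod_lt_of_pos (t - i) (show (0 : ℤ) < N by omega)
        have h3 := Int.emod_add_mul_ediv (t - i) N
        refine ⟨(t - i) / N + 1, ?_⟩
        have h4 : ((N - ((t - i) % N).toNat : ℕ) : ℤ) = N - (t - i) % N := by omega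
        rw [h4]
        linarith
    obtain ⟨hq1, hq2, hq3⟩ := Nat.find_spec hex
    set q := Nat.find hex with hq
    have hmin : ∀ q', q' < q → 1 ≤ q' → t + (q' : ℤ) ∈ Z := by
      intro q' hq' h1
      by_contra h2
      exact Nat.find_min hex hq' ⟨h1, by omega, h2⟩
    rw [Finset.mem_biUnion]
    refine ⟨t + ((q - 1 : ℕ) : ℤ), ?_, ?_⟩
    · rw [Finset.mem_filter]
      refine ⟨?_, ?_⟩
      · by_cases hq0 : q = 1
        · rw [hq0]
          simpa using ht
        · exact hmin (q - 1) (by omega) (by omega)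
      · have h1 : t + ((q - 1 : ℕ) : ℤ) + 1 = t + (q : ℤ) := by omega
        rw [h1]
        exact hq3
    · rw [Finset.mem_Ioc]
      omega
  have hcov := Finset.card_le_card hcover
  have hb := Finset.card_biUnion_le_card_mul (Z.filter fun t => ¬ (t + 1 ∈ Z)) (fun u => Finset.Ioc (u - N) u) N
    (fun u _ => by rw [Int.card_Ioc]; omega)
  have hFZ2 : F.card ≤ Z.card := by
    have := Finset.card_filter_le Z (fun t => t + 1 ∈ Z)
    omega
  calc F.card ≤ Z.card := hFZ2
    _ ≤ (Z.filter fun t => ¬ (t + 1 ∈ Z)).card * N := hcov.trans hb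
    _ ≤ κ * N := Nat.mul_le_mul_right N hends

end Pool.Agent.WN
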